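import Pool.Agent.W_448g_h5.GA
import Pool.Agent.W_448hul_h24.Hull

/-!
# Component rows (MP_448cb3_co, general case)

The elements of level at most `j` below a maximal element form a planar strip if the levels less
than `j` are good.
-/

namespace Pool.Agent.GaussPoset.Cp

set_option linter.unusedSectionVars false

open Finset Win

universe u

variable {P : Type u} [Fintype P] [PartialOrder P] [DecidableEq P] {r j : ℕ}

lemma ucv_comm' (v v' : P) : ucv v v' = ucv v' v := by
  classical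
  unfold ucv
  congr 1
  ext y
  simp only [mem_filter, mem_univ, true_and]
  exact and_comm

lemma dcv_comm' (v v' : P) : dcv v v' = dcv v' v := by
  classical
  unfold dcv
  congr 1
  ext y
  simp only [mem_filter, mem_univ, true_and]
  exact and_comm

/-- no element of level at most `j` is below two maximal elements -/
theorem no_join (H : Gr P r) (hg : ∀ l, l < j → Good P l) : ∀ x : P, lev x ≤ j → ¬ Hul.Jn x := by
  suffices key : ∀ (n : ℕ) (x : P), lev x = n → n ≤ j → ¬ Hul.Jn x from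
    fun x hx => key _ x rfl hx
  intro n
  induction n with
  | zero =>
    rintro x hx - ⟨v, v', h1, h2, h3, h4, h5⟩
    have h6 : ∀ v : P, x ≤ v → x = v := fun v hv => by
      by_contra hne
      have := lev_strictAnti (lt_of_le_of_ne hv hne)
      omega
    exact h3 ((h6 v h4).symm.trans (h6 v' h5))
  | succ n ih =>
    rintro x hx hn ⟨v, v', h1, h2, h3, h4, h5⟩
    have hxv : x < v := lt_of_le_of_ne h4 (by rintro rfl; omega)
    have hxv' : x < v' := lt_of_le_of_ne h5 (by rintro rfl; omega)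
    obtain ⟨y, hy, hy2⟩ := Hul.exists_cov hxv
    obtain ⟨y', hy', hy2'⟩ := Hul.exists_cov hxv'
    have hl := lev_covBy H.gauss hy
    have hl' := lev_covBy H.gauss hy'
    by_cases hyy : y = y'
    · exact ih y (by omega) (by omega) ⟨v, v', h1, h2, h3, hy2, hyy ▸ hy2'⟩
    · have hg' := hg n (by omega) y y' (by omega) (by omega) hyy
      have hd := dcv_pos hy hy'
      rw [← hg'] at hd
      obtain ⟨w, hw, hw'⟩ := exists_of_ucv hd
      obtain ⟨t, ht, ht2⟩ := exists_above' (x := w) (j := 0) (Nat.zero_le _)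
      have e1 := Hul.top_unique (ih y (by omega) (by omega)) h1 ht2 hy2 (hw.le.trans ht)
      have e2 := Hul.top_unique (ih y' (by omega) (by omega)) h2 ht2 hy2' (hw'.le.trans ht)
      exact h3 (e1.trans e2.symm)

/-- everything above an element of level `≤ j` below `t` is below `t` -/
lemma up_le (H : Gr P r) (hg : ∀ l, l < j → Good P l) {z t y : P} (ht : lev t = 0) (hz : z ≤ t)
    (hzj : lev z ≤ j) (hzy : z ≤ y) : y ≤ t := by
  obtain ⟨s, hs, hs2⟩ := exists_above' (x := y) (j := 0) (Nat.zero_le _)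
  have := Hul.top_unique (no_join H hg z hzj) ht hs2 hz (hzy.trans hs)
  rw [this]
  exact hs

/-- The elements of level `≤ j` below the maximal element `t` form a planar strip: level `k` is the
interval `e k (lo k), …, e k (hi k)`, and the upper covers of `e (k+1) s` are `e k s` and
`e k (s-1)` as far as they exist. -/
structure Comp (j : ℕ) (t : P) (lo hi : ℕ → ℕ) (e : ℕ → ℕ → P) : Prop where
  lo_zero : lo 0 = 0
  hi_zero : hi 0 = 0
  top : e 0 0 = t
  lo_step : ∀ k, k < j → lo (k + 1) = lo k ∨ lo (k + 1) = lo k + 1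
  hi_step : ∀ k, k < j → hi (k + 1) = hi k ∨ hi (k + 1) = hi k + 1
  lo_le : ∀ k, k ≤ j → lo k ≤ hi k
  lev_e : ∀ k s, k ≤ j → lo k ≤ s → s ≤ hi k → lev (e k s) = k
  le_t : ∀ k s, k ≤ j → lo k ≤ s → s ≤ hi k → e k s ≤ t
  inj : ∀ k s s', k ≤ j → lo k ≤ s → s ≤ hi k → lo k ≤ s' → s' ≤ hi k → e k s = e k s' → s = s'
  surj : ∀ z, z ≤ t → lev z ≤ j → ∃ s, lo (lev z) ≤ s ∧ s ≤ hi (lev z) ∧ e (lev z) s = z
  cov : ∀ k s s', k < j → lo (k + 1) ≤ s → s ≤ hi (k + 1) → lo k ≤ s' → s' ≤ hi k →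
    (e (k + 1) s ⋖ e k s' ↔ s' = s ∨ s' + 1 = s)

/-- adding one level -/
lemma Comp.extend (H : Gr P r) {k : ℕ} {t : P} (ht : lev t = 0) {lo hi : ℕ → ℕ} {e : ℕ → ℕ → P}
    (C : Comp k t lo hi e) {lo' hi' : ℕ} {f : ℕ → P} (hlo : lo' = lo k ∨ lo' = lo k + 1)
    (hhi : hi' = hi k ∨ hi' = hi k + 1) (hle : lo' ≤ hi')
    (hlev : ∀ s, lo' ≤ s → s ≤ hi' → lev (f s) = k + 1)
    (hinj : ∀ s s', lo' ≤ s → s ≤ hi' → lo' ≤ s' → s' ≤ hi' → f s = f s' → s = s')
    (hsurj : ∀ z, z ≤ t → lev z = k + 1 → ∃ s, lo' ≤ s ∧ s ≤ hi' ∧ f s = z)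
    (hcov : ∀ s s', lo' ≤ s → s ≤ hi' → lo k ≤ s' → s' ≤ hi k →
      (f s ⋖ e k s' ↔ s' = s ∨ s' + 1 = s)) :
    Comp (k + 1) t (Function.update lo (k + 1) lo') (Function.update hi (k + 1) hi')
      (Function.update e (k + 1) f) := by
  have hl : ∀ (g : ℕ → ℕ) (a : ℕ) (i : ℕ), i ≤ k →
      Function.update g (k + 1) a i = g i := fun g a i hi =>
    Function.update_of_ne (by omega) a g
  have hs : ∀ (g : ℕ → ℕ) (a : ℕ), Function.update g (k + 1) a (k + 1) = a :=
    fun g a => Function.update_self _ _ _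
  have hlE : ∀ (i : ℕ), i ≤ k → Function.update e (k + 1) f i = e i := fun i hi =>
    Function.update_of_ne (by omega) f e
  have hsE : Function.update e (k + 1) f (k + 1) = f := Function.update_self _ _ _
  have hft : ∀ s, lo' ≤ s → s ≤ hi' → f s ≤ t := by
    intro s h1 h2
    have h0 := C.lo_le k le_rfl
    -- one of `s`, `s - 1` is in the row
    have : ∃ s', lo k ≤ s' ∧ s' ≤ hi k ∧ (s' = s ∨ s' + 1 = s) := by
      by_cases hc : s ≤ hi k
      · exact ⟨s, by omega, hc, Or.inl rfl⟩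
      · exact ⟨s - 1, by omega, by omega, by omega⟩
    obtain ⟨s', h3, h4, h5⟩ := this
    exact ((hcov s s' h1 h2 h3 h4).2 h5).le.trans (C.le_t k s' le_rfl h3 h4)
  refine ⟨?_, ?_, ?_, ?_, ?_, ?_, ?_, ?_, ?_, ?_, ?_⟩
  · rw [hl _ _ _ (Nat.zero_le _)]; exact C.lo_zero
  · rw [hl _ _ _ (Nat.zero_le _)]; exact C.hi_zero
  · rw [hlE _ (Nat.zero_le _)]; exact C.top
  · intro i hi'
    rcases Nat.lt_or_ge i k with h | h
    · rw [hl _ _ _ h, hl _ _ _ h.le]
      exact C.lo_step i h
    · obtain rfl : i = k := by omega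
      rw [hs, hl _ _ _ le_rfl]
      exact hlo
  · intro i hi'
    rcases Nat.lt_or_ge i k with h | h
    · rw [hl _ _ _ h, hl _ _ _ h.le]
      exact C.hi_step i h
    · obtain rfl : i = k := by omega
      rw [hs, hl _ _ _ le_rfl]
      exact hhi
  · intro i hi'
    rcases Nat.lt_or_ge k i with h | h
    · obtain rfl : i = k + 1 := by omega
      rw [hs, hs]
      exact hle
    · rw [hl _ _ _ h, hl _ _ _ h]
      exact C.lo_le i h
  · intro i s hi' h1 h2
    rcases Nat.lt_or_ge k i with h | h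
    · obtain rfl : i = k + 1 := by omega
      rw [hs] at h1 h2
      rw [hsE]
      exact hlev s h1 h2
    · rw [hl _ _ _ h] at h1 h2
      rw [hlE _ h]
      exact C.lev_e i s h h1 h2
  · intro i s hi' h1 h2
    rcases Nat.lt_or_ge k i with h | h
    · obtain rfl : i = k + 1 := by omega
      rw [hs] at h1 h2
      rw [hsE]
      exact hft s h1 h2
    · rw [hl _ _ _ h] at h1 h2
      rw [hlE _ h]
      exact C.le_t i s h h1 h2
  · intro i s s' hi' h1 h2 h3 h4 h5
    rcases Nat.lt_or_ge k i with h | h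
    · obtain rfl : i = k + 1 := by omega
      rw [hs] at h1 h2 h3 h4
      rw [hsE] at h5
      exact hinj s s' h1 h2 h3 h4 h5
    · rw [hl _ _ _ h] at h1 h2 h3 h4
      rw [hlE _ h] at h5
      exact C.inj i s s' h h1 h2 h3 h4 h5
  · intro z hz hzl
    rcases Nat.lt_or_ge k (lev z) with h | h
    · have h6 : lev z = k + 1 := by omega
      rw [h6, hs, hs, hsE]
      exact hsurj z hz h6
    · rw [hl _ _ _ h, hl _ _ _ h, hlE _ h]
      exact C.surj z hz h
  · intro i s s' hi' h1 h2 h3 h4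
    rcases Nat.lt_or_ge i k with h | h
    · rw [hl _ _ _ h] at h1 h2
      rw [hl _ _ _ h.le] at h3 h4
      rw [hlE _ h, hlE _ h.le]
      exact C.cov i s s' h h1 h2 h3 h4
    · obtain rfl : i = k := by omega
      rw [hs] at h1 h2
      rw [hl _ _ _ le_rfl] at h3 h4
      rw [hsE, hlE _ le_rfl]
      exact hcov s s' h1 h2 h3 h4

end Pool.Agent.GaussPoset.Cp
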