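import Pool.Agent.W_448cp_h96.CD
import Pool.Agent.W_448cr_h63.CC

/-!
# Component rows, part E: the two structures `Cp.Comp` and `Win.Comp` are the same
-/

namespace Pool.Agent.GaussPoset.Cp

set_option linter.unusedSectionVars false

open Finset

universe u

variable {P : Type u} [Fintype P] [PartialOrder P] [DecidableEq P] {r j : ℕ}
  {t : P} {lo hi : ℕ → ℕ} {e : ℕ → ℕ → P}

lemma Comp.toWin (C : Comp j t lo hi e) : Win.Comp P t j lo hi e where
  lo0 := C.lo_zero
  hi0 := C.hi_zero
  x0 := C.top
  lo_le := fun k hk => by have := C.lo_step k hk; omega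
  lo_ge := fun k hk => by have := C.lo_step k hk; omega
  hi_le := fun k hk => by have := C.hi_step k hk; omega
  hi_ge := fun k hk => by have := C.hi_step k hk; omega
  lohi := fun k hk => C.lo_le k hk
  lev_x := fun k hk a h1 h2 => C.lev_e k a hk h1 h2
  le_t := fun k hk a h1 h2 => C.le_t k a hk h1 h2
  inj := fun k hk a b h1 h2 h3 h4 => by
    have := C.inj k a b hk h1 (by omega) (by omega) h3 h4
    omega
  surj := fun k hk y hy hyt => by
    subst hy
    exact C.surj y hyt hk
  cov := fun k hk a b h1 h2 h3 h4 => C.cov k a b hk h1 h2 h3 h4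

lemma ofWin (C : Win.Comp P t j lo hi e) : Comp j t lo hi e where
  lo_zero := C.lo0
  hi_zero := C.hi0
  top := C.x0
  lo_step := fun k hk => by have := C.lo_le k hk; have := C.lo_ge k hk; omega
  hi_step := fun k hk => by have := C.hi_le k hk; have := C.hi_ge k hk; omega
  lo_le := fun k hk => C.lohi k hk
  lev_e := fun k s hk h1 h2 => C.lev_x k hk s h1 h2
  le_t := fun k s hk h1 h2 => C.le_t k hk s h1 h2
  inj := fun k s s' hk h1 h2 h3 h4 h5 => C.inj' hk h1 h2 h3 h4 h5
  surj := fun z hz hzl => C.surj (lev z) hzl z rfl hz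
  cov := fun k s s' hk h1 h2 h3 h4 => C.cov k hk s s' h1 h2 h3 h4

end Pool.Agent.GaussPoset.Cp
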