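import Pool.Agent.W_448cp_h96.CA

/-!
# Component rows, part B: existence
-/

namespace Pool.Agent.GaussPoset.Cp

set_option linter.unusedSectionVars false

open Finset Win

universe u

variable {P : Type u} [Fintype P] [PartialOrder P] [DecidableEq P] {r j : ℕ}

lemma dcv_unique {v v' z z' : P} (hd : dcv v v' = 1) (h1 : z ⋖ v) (h2 : z ⋖ v') (h3 : z' ⋖ v)
    (h4 : z' ⋖ v') : z = z' := by
  classical
  unfold dcv at hd
  obtain ⟨y, hy⟩ := Finset.card_eq_one.1 hd
  have e1 : z ∈ univ.filter (fun y : P => y ⋖ v ∧ y ⋖ v') := by simp [h1, h2]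
  have e2 : z' ∈ univ.filter (fun y : P => y ⋖ v ∧ y ⋖ v') := by simp [h3, h4]
  rw [hy, mem_singleton] at e1 e2
  rw [e1, e2]

section

variable {t : P} {lo hi : ℕ → ℕ} {e : ℕ → ℕ → P}

/-- the upper covers of a row element -/
lemma Comp.cov_up (C : Comp j t lo hi e) (H : Gr P r) (hg : ∀ l, l < j → Good P l)
    (ht : lev t = 0) {k s : ℕ} (hk : k < j) (h1 : lo (k + 1) ≤ s) (h2 : s ≤ hi (k + 1)) {y : P}
    (hy : e (k + 1) s ⋖ y) :
    ∃ s', lo k ≤ s' ∧ s' ≤ hi k ∧ y = e k s' ∧ (s' = s ∨ s' + 1 = s) := by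
  have hl := C.lev_e (k + 1) s (by omega) h1 h2
  have hly := lev_cov H hy
  have hyt := up_le H hg ht (C.le_t (k + 1) s (by omega) h1 h2) (by omega) hy.le
  obtain ⟨s', h3, h4, h5⟩ := C.surj y hyt (by omega)
  have hlk : lev y = k := by omega
  rw [hlk] at h3 h4 h5
  refine ⟨s', h3, h4, h5.symm, ?_⟩
  rw [← C.cov k s s' hk h1 h2 h3 h4, h5]
  exact hy

/-- neighbours of a row have exactly one common upper cover -/
lemma Comp.ucv_adj (C : Comp j t lo hi e) (H : Gr P r) (hg : ∀ l, l < j → Good P l)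
    (ht : lev t = 0) {k s : ℕ} (hk : k ≤ j) (h1 : lo k ≤ s) (h2 : s + 1 ≤ hi k) :
    ucv (e k s) (e k (s + 1)) = 1 := by
  classical
  rcases Nat.eq_zero_or_pos k with rfl | hk0
  · rw [C.hi_zero] at h2
    omega
  obtain ⟨k, rfl⟩ : ∃ i, k = i + 1 := ⟨k - 1, by omega⟩
  have hlo := C.lo_step k (by omega)
  have hhi := C.hi_step k (by omega)
  unfold ucv
  rw [Finset.card_eq_one]
  refine ⟨e k s, ?_⟩
  ext y
  simp only [mem_filter, mem_univ, true_and, mem_singleton]
  constructor
  · rintro ⟨h3, h4⟩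
    obtain ⟨a, ha1, ha2, ha3, ha4⟩ := C.cov_up H hg ht (by omega) h1 (by omega) h3
    obtain ⟨b, hb1, hb2, hb3, hb4⟩ := C.cov_up H hg ht (by omega) (by omega) h2 h4
    have hab := C.inj k a b (by omega) ha1 ha2 hb1 hb2 (ha3.symm.trans hb3)
    rw [ha3, show a = s by omega]
  · rintro rfl
    exact ⟨(C.cov k s s (by omega) h1 (by omega) (by omega) (by omega)).2 (Or.inl rfl),
      (C.cov k (s + 1) s (by omega) (by omega) h2 (by omega) (by omega)).2 (Or.inr rfl)⟩

/-- other pairs of a row have no common upper cover -/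
lemma Comp.ucv_far (C : Comp j t lo hi e) (H : Gr P r) (hg : ∀ l, l < j → Good P l)
    (ht : lev t = 0) {k s s' : ℕ} (hk : k ≤ j) (h1 : lo k ≤ s) (h2 : s + 1 < s') (h3 : s' ≤ hi k) :
    ucv (e k s) (e k s') = 0 := by
  classical
  rcases Nat.eq_zero_or_pos k with rfl | hk0
  · rw [C.hi_zero] at h3
    omega
  obtain ⟨k, rfl⟩ : ∃ i, k = i + 1 := ⟨k - 1, by omega⟩
  unfold ucv
  rw [Finset.card_eq_zero, Finset.filter_eq_empty_iff]
  rintro y - ⟨h4, h5⟩
  obtain ⟨a, ha1, ha2, ha3, ha4⟩ := C.cov_up H hg ht (by omega) h1 (by omega) h4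
  obtain ⟨b, hb1, hb2, hb3, hb4⟩ := C.cov_up H hg ht (by omega) (by omega) h3 h5
  have hab := C.inj k a b (by omega) ha1 ha2 hb1 hb2 (ha3.symm.trans hb3)
  omega

/-- `ucv` on a row -/
lemma Comp.ucv_row (C : Comp j t lo hi e) (H : Gr P r) (hg : ∀ l, l < j → Good P l)
    (ht : lev t = 0) {k s s' : ℕ} (hk : k ≤ j) (h1 : lo k ≤ s) (h2 : s ≤ hi k) (h3 : lo k ≤ s')
    (h4 : s' ≤ hi k) (hne : s ≠ s') :
    ucv (e k s) (e k s') = if s + 1 = s' ∨ s' + 1 = s then 1 else 0 := by
  rcases Nat.lt_or_gt_of_ne hne with h | h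
  · by_cases hc : s + 1 = s'
    · rw [if_pos (Or.inl hc), ← hc]
      exact C.ucv_adj H hg ht hk h1 (by omega)
    · rw [if_neg (by omega)]
      exact C.ucv_far H hg ht hk h1 (by omega) h4
  · by_cases hc : s' + 1 = s
    · rw [if_pos (Or.inr hc), ← hc, ucv_comm']
      exact C.ucv_adj H hg ht hk h3 (by omega)
    · rw [if_neg (by omega), ucv_comm']
      exact C.ucv_far H hg ht hk h3 (by omega) h2

/-- elements of the next level below `t` have a cover in the row -/
lemma Comp.child (C : Comp j t lo hi e) (H : Gr P r) {z : P} (hz : z ≤ t) (hzl : lev z = j + 1)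
    (ht : lev t = 0) : ∃ s, lo j ≤ s ∧ s ≤ hi j ∧ z ⋖ e j s := by
  have hlt : z < t := lt_of_le_of_ne hz (by rintro rfl; omega)
  obtain ⟨y, hy, hy2⟩ := Hul.exists_cov hlt
  have hly := lev_cov H hy
  obtain ⟨s, h1, h2, h3⟩ := C.surj y hy2 (by omega)
  have : lev y = j := by omega
  rw [this] at h1 h2 h3
  exact ⟨s, h1, h2, by rw [h3]; exact hy⟩

/-- two covers in the row are neighbours -/
lemma Comp.child_adj (C : Comp j t lo hi e) (H : Gr P r) (hg : ∀ l, l < j + 1 → Good P l)
    (ht : lev t = 0) {z : P} {s s' : ℕ} (h1 : lo j ≤ s) (h2 : s ≤ hi j) (h3 : lo j ≤ s')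
    (h4 : s' ≤ hi j) (h5 : z ⋖ e j s) (h6 : z ⋖ e j s') (hlt : s < s') : s' = s + 1 := by
  have hne : e j s ≠ e j s' := fun h => by
    have := C.inj j s s' le_rfl h1 h2 h3 h4 h
    omega
  have hd := dcv_pos h5 h6
  rw [← hg j (by omega) _ _ (C.lev_e j s le_rfl h1 h2) (C.lev_e j s' le_rfl h3 h4) hne] at hd
  by_contra hcon
  rw [C.ucv_far H (fun l hl => hg l (by omega)) ht le_rfl h1 (by omega) h4] at hd
  omega

/-- one level down -/
theorem Comp.step (C : Comp j t lo hi e) (H : Gr P r) (hjr : j + 1 ≤ r)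
    (hg : ∀ l, l < j + 1 → Good P l) (ht : lev t = 0) :
    ∃ lo' hi' e', Comp (j + 1) t lo' hi' e' := by
  classical
  have hg' : ∀ l, l < j → Good P l := fun l hl => hg l (by omega)
  have hle := C.lo_le j le_rfl
  rcases Nat.lt_or_ge (lo j) (hi j) with hlt | hge
  · -- at least two elements in the row
    have hD : ∀ s, ∃ z : P, lo j ≤ s → s < hi j → z ⋖ e j s ∧ z ⋖ e j (s + 1) := by
      intro s
      by_cases hc : lo j ≤ s ∧ s < hi j
      · have h1 := C.ucv_adj H hg' ht le_rfl hc.1 hc.2
        have hne : e j s ≠ e j (s + 1) := fun h => by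
          have := C.inj j s (s + 1) le_rfl hc.1 hc.2.le (by omega) hc.2 h
          omega
        rw [hg j (by omega) _ _ (C.lev_e j s le_rfl hc.1 hc.2.le)
          (C.lev_e j (s + 1) le_rfl (by omega) hc.2) hne] at h1
        obtain ⟨z, h2, h3⟩ := exists_of_dcv (by omega : 0 < dcv (e j s) (e j (s + 1)))
        exact ⟨z, fun _ _ => ⟨h2, h3⟩⟩
      · exact ⟨t, fun h1 h2 => absurd ⟨h1, h2⟩ hc⟩
    choose D hD using hD
    have hDiff : ∀ s s', lo j ≤ s → s < hi j → lo j ≤ s' → s' ≤ hi j →
        (D s ⋖ e j s' ↔ s' = s ∨ s' = s + 1) := by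
      intro s s' h1 h2 h3 h4
      obtain ⟨h5, h6⟩ := hD s h1 h2
      constructor
      · intro h
        rcases Nat.lt_trichotomy s' s with h7 | h7 | h7
        · have := C.child_adj H hg ht h3 h4 (s' := s + 1) (by omega) (by omega) h h6 (by omega)
          omega
        · exact Or.inl h7
        · exact Or.inr (C.child_adj H hg ht h1 h2.le h3 h4 h5 h h7)
      · rintro (rfl | rfl)
        · exact h5
        · exact h6
    have hDne : ∀ s, lo j ≤ s → s + 1 < hi j → D s ≠ D (s + 1) := by
      intro s h1 h2 h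
      have h3 := (hDiff (s + 1) s (by omega) h2 h1 (by omega)).1 (h ▸ (hD s h1 (by omega)).1)
      omega
    -- the pendants
    have hLe : ∃ (lo' : ℕ) (zL : P), (lo' = lo j ∨ lo' = lo j + 1) ∧
        (lo' = lo j → ∀ s', lo j ≤ s' → s' ≤ hi j → (zL ⋖ e j s' ↔ s' = lo j)) ∧
        (∀ z, z ⋖ e j (lo j) → z = D (lo j) ∨ (lo' = lo j ∧ z = zL)) := by
      by_cases hL : ∃ z, z ⋖ e j (lo j) ∧ z ≠ D (lo j)
      · obtain ⟨z, h1, h2⟩ := hL
        refine ⟨lo j, z, Or.inl rfl, fun _ s' h3 h4 => ⟨fun h5 => ?_, ?_⟩, fun z' h3 => ?_⟩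
        · by_contra hcon
          have h6 := C.child_adj H hg ht le_rfl hle h3 h4 h1 h5 (by omega)
          subst h6
          have h7 := C.ucv_adj H hg' ht le_rfl le_rfl h4
          have hne : e j (lo j) ≠ e j (lo j + 1) := fun h => by
            have := C.inj j _ _ le_rfl le_rfl hle h3 h4 h
            omega
          rw [hg j (by omega) _ _ (C.lev_e j _ le_rfl le_rfl hle)
            (C.lev_e j _ le_rfl h3 h4) hne] at h7
          exact h2 (dcv_unique h7 h1 h5 (hD _ le_rfl hlt).1 (hD _ le_rfl hlt).2)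
        · rintro rfl
          exact h1
        · by_contra hcon
          push Not at hcon
          exact dc_three H h1 h3 (hD _ le_rfl hlt).1 (fun h => hcon.2 rfl h.symm) h2 hcon.1
      · push Not at hL
        exact ⟨lo j + 1, t, Or.inr rfl, fun h => by omega, fun z hz => Or.inl (hL z hz)⟩
    have hRe : ∃ (hi' : ℕ) (zR : P), (hi' = hi j ∨ hi' = hi j + 1) ∧
        (hi' = hi j + 1 → ∀ s', lo j ≤ s' → s' ≤ hi j → (zR ⋖ e j s' ↔ s' = hi j)) ∧
        (∀ z, z ⋖ e j (hi j) → z = D (hi j - 1) ∨ (hi' = hi j + 1 ∧ z = zR)) := by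
      have h0 := hD (hi j - 1) (by omega) (by omega)
      rw [Nat.sub_add_cancel (by omega : 1 ≤ hi j)] at h0
      by_cases hR : ∃ z, z ⋖ e j (hi j) ∧ z ≠ D (hi j - 1)
      · obtain ⟨z, h1, h2⟩ := hR
        refine ⟨hi j + 1, z, Or.inr rfl, fun _ s' h3 h4 => ⟨fun h5 => ?_, ?_⟩, fun z' h3 => ?_⟩
        · by_contra hcon
          have h6 := C.child_adj H hg ht h3 h4 hle le_rfl h5 h1 (by omega)
          have h7 := C.ucv_adj H hg' ht le_rfl h3 (s := s') (by omega)
          rw [← h6] at h7
          have hne : e j s' ≠ e j (hi j) := fun h => by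
            have := C.inj j _ _ le_rfl h3 h4 hle le_rfl h
            omega
          rw [hg j (by omega) _ _ (C.lev_e j _ le_rfl h3 h4)
            (C.lev_e j _ le_rfl hle le_rfl) hne] at h7
          have h8 : hi j - 1 = s' := by omega
          rw [h8] at h0 h2
          exact h2 (dcv_unique h7 h5 h1 h0.1 h0.2)
        · rintro rfl
          exact h1
        · by_contra hcon
          push Not at hcon
          exact dc_three H h1 h3 h0.2 (fun h => hcon.2 rfl h.symm) h2 hcon.1
      · push Not at hR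
        exact ⟨hi j, t, Or.inl rfl, fun h => by omega, fun z hz => Or.inl (hR z hz)⟩
    obtain ⟨lo', zL, hlo, hLc, hLs⟩ := hLe
    obtain ⟨hi', zR, hhi, hRc, hRs⟩ := hRe
    set f : ℕ → P := fun s => if s ≤ lo j then zL else if s ≤ hi j then D (s - 1) else zR with hf
    have hcov : ∀ s s', lo' ≤ s → s ≤ hi' → lo j ≤ s' → s' ≤ hi j →
        (f s ⋖ e j s' ↔ s' = s ∨ s' + 1 = s) := by
      intro s s' h1 h2 h3 h4
      by_cases h5 : s ≤ lo j
      · have h6 : f s = zL := by rw [hf]; simp only [if_pos h5]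
        rw [h6, hLc (by omega) s' h3 h4]
        omega
      · by_cases h6 : s ≤ hi j
        · have h7 : f s = D (s - 1) := by rw [hf]; simp only [if_neg h5, if_pos h6]
          rw [h7, hDiff (s - 1) s' (by omega) (by omega) h3 h4]
          omega
        · have h7 : f s = zR := by rw [hf]; simp only [if_neg h5, if_neg h6]
          rw [h7, hRc (by omega) s' h3 h4]
          omega
    refine ⟨_, _, _, C.extend H ht (lo' := lo') (hi' := hi') (f := f) hlo hhi (by omega) ?_ ?_ ?_
      hcov⟩
    · intro s h1 h2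
      have : ∃ s', lo j ≤ s' ∧ s' ≤ hi j ∧ (s' = s ∨ s' + 1 = s) := by
        by_cases hc : s ≤ hi j
        · exact ⟨s, by omega, hc, Or.inl rfl⟩
        · exact ⟨s - 1, by omega, by omega, by omega⟩
      obtain ⟨s', h3, h4, h5⟩ := this
      have h6 := lev_cov H ((hcov s s' h1 h2 h3 h4).2 h5)
      rw [C.lev_e j s' le_rfl h3 h4] at h6
      exact h6
    · have key : ∀ s s', lo' ≤ s → s' ≤ hi' → s < s' → f s ≠ f s' := by
        intro s s' h1 h2 h3 h4
        by_cases hc : s' ≤ hi j
        · have h5 := (hcov s' s' (by omega) h2 (by omega) hc).2 (Or.inl rfl)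
          rw [← h4, hcov s s' h1 (by omega) (by omega) hc] at h5
          omega
        · have h5 := (hcov s' (s' - 1) (by omega) h2 (by omega) (by omega)).2 (by omega)
          rw [← h4, hcov s (s' - 1) h1 (by omega) (by omega) (by omega)] at h5
          have h6 : s = hi j := by omega
          have h7 := (hcov s (s - 1) h1 (by omega) (by omega) (by omega)).2 (by omega)
          rw [h4, hcov s' (s - 1) (by omega) h2 (by omega) (by omega)] at h7
          omega
      intro s s' h1 h2 h3 h4 h5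
      by_contra hne
      rcases Nat.lt_or_gt_of_ne hne with h | h
      · exact key s s' h1 h4 h h5
      · exact key s' s h3 h2 h h5.symm
    · intro z hz hzl
      obtain ⟨s', h1, h2, h3⟩ := C.child H hz hzl ht
      by_cases hc1 : s' = lo j
      · subst hc1
        rcases hLs z h3 with h4 | ⟨h4, h5⟩
        · refine ⟨lo j + 1, by omega, by omega, ?_⟩
          rw [hf, h4]
          simp only [if_neg (by omega : ¬ lo j + 1 ≤ lo j), if_pos (by omega : lo j + 1 ≤ hi j),
            Nat.add_sub_cancel]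
        · refine ⟨lo j, by omega, by omega, ?_⟩
          rw [hf, h5]
          simp only [le_refl, if_true]
      · by_cases hc2 : s' = hi j
        · subst hc2
          rcases hRs z h3 with h4 | ⟨h4, h5⟩
          · refine ⟨hi j, by omega, by omega, ?_⟩
            rw [hf, h4]
            simp only [if_neg (by omega : ¬ hi j ≤ lo j), le_refl, if_true]
          · refine ⟨hi j + 1, by omega, by omega, ?_⟩
            rw [hf, h5]
            simp only [if_neg (by omega : ¬ hi j + 1 ≤ lo j),
              if_neg (by omega : ¬ hi j + 1 ≤ hi j)]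
        · have h4 := hD s' h1 (by omega)
          have h5 := hD (s' - 1) (by omega) (by omega)
          rw [Nat.sub_add_cancel (by omega : 1 ≤ s')] at h5
          have h6 := hDne (s' - 1) (by omega) (by omega)
          rw [Nat.sub_add_cancel (by omega : 1 ≤ s')] at h6
          by_cases h7 : z = D s'
          · refine ⟨s' + 1, by omega, by omega, ?_⟩
            rw [hf, h7]
            simp only [if_neg (by omega : ¬ s' + 1 ≤ lo j), if_pos (by omega : s' + 1 ≤ hi j),
              Nat.add_sub_cancel]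
          · by_cases h8 : z = D (s' - 1)
            · refine ⟨s', by omega, by omega, ?_⟩
              rw [hf, h8]
              simp only [if_neg (by omega : ¬ s' ≤ lo j), if_pos h2]
            · exact (dc_three H h3 h4.1 h5.2 h7 h8 (Ne.symm h6)).elim
  · -- one element in the row
    have heq : hi j = lo j := by omega
    have hlx := C.lev_e j (lo j) le_rfl le_rfl hle
    obtain ⟨z0, hz0, hz0l⟩ := H.exists_below (x := e j (lo j)) (j := j + 1) (by omega) hjr
    have hz0c : z0 ⋖ e j (lo j) := by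
      rw [H.covBy_iff]
      exact ⟨lt_of_le_of_ne hz0 (by rintro rfl; omega), by omega⟩
    rcases dc_card_cases H hz0c with h1 | h1
    · refine ⟨_, _, _, C.extend H ht (lo' := lo j) (hi' := hi j) (f := fun _ => z0)
        (Or.inl rfl) (Or.inl rfl) hle ?_ ?_ ?_ ?_⟩
      · intro s h2 h3
        have := lev_cov H hz0c
        omega
      · intro s s' h2 h3 h4 h5 _
        omega
      · intro z hz hzl
        obtain ⟨s', h2, h3, h4⟩ := C.child H hz hzl ht
        obtain rfl : s' = lo j := by omega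
        exact ⟨lo j, le_rfl, hle, dc_unique h1 hz0c h4⟩
      · intro s s' h2 h3 h4 h5
        obtain rfl : s' = lo j := by omega
        refine ⟨fun _ => by omega, fun _ => hz0c⟩
    · obtain ⟨z1, hz1, hz10⟩ := exists_other_dc (z := z0) h1
      refine ⟨_, _, _, C.extend H ht (lo' := lo j) (hi' := hi j + 1)
        (f := fun s => if s ≤ lo j then z0 else z1)
        (Or.inl rfl) (Or.inr rfl) (by omega) ?_ ?_ ?_ ?_⟩
      · intro s h2 h3
        have e1 := lev_cov H hz0c
        have e2 := lev_cov H hz1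
        show lev (if s ≤ lo j then z0 else z1) = j + 1
        split_ifs <;> omega
      · intro s s' h2 h3 h4 h5 h6
        split_ifs at h6 with h7 h8 h8
        · omega
        · exact absurd h6.symm hz10
        · exact absurd h6 hz10
        · omega
      · intro z hz hzl
        obtain ⟨s', h2, h3, h4⟩ := C.child H hz hzl ht
        obtain rfl : s' = lo j := by omega
        by_cases h5 : z = z0
        · exact ⟨lo j, le_rfl, by omega, by simp [h5]⟩
        · refine ⟨lo j + 1, by omega, by omega, ?_⟩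
          simp only [if_neg (by omega : ¬ lo j + 1 ≤ lo j)]
          by_contra h6
          exact dc_three H h4 hz0c hz1 h5 (fun h => h6 h.symm) hz10.symm
      · intro s s' h2 h3 h4 h5
        obtain rfl : s' = lo j := by omega
        show (if s ≤ lo j then z0 else z1) ⋖ e j (lo j) ↔ _
        refine ⟨fun _ => by omega, fun _ => ?_⟩
        split_ifs
        · exact hz0c
        · exact hz1

end

/-- the levels `≤ j` below a maximal element form a planar strip if the levels `< j` are good -/
theorem comp_exists (H : Gr P r) {t : P} (ht : lev t = 0) : ∀ {j : ℕ}, j ≤ r →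
    (∀ l, l < j → Good P l) → ∃ lo hi e, Comp j t lo hi e := by
  intro j
  induction j with
  | zero =>
    intro _ _
    refine ⟨fun _ => 0, fun _ => 0, fun _ _ => t, ⟨rfl, rfl, rfl, fun k hk => by omega,
      fun k hk => by omega, fun _ _ => le_rfl, fun k s hk _ _ => by omega, fun _ _ _ _ _ => le_rfl,
      fun k s s' _ h1 h2 h3 h4 _ => by omega, fun z hz hzl => ?_, fun k s s' hk => by omega⟩⟩
    refine ⟨0, le_rfl, le_rfl, ?_⟩
    by_contra hne
    have := lev_strictAnti (lt_of_le_of_ne hz (Ne.symm hne))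
    omega
  | succ j ih =>
    intro hjr hg
    obtain ⟨lo, hi, e, C⟩ := ih (by omega) (fun l hl => hg l (by omega))
    exact C.step H hjr hg ht

end Pool.Agent.GaussPoset.Cp
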