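import Pool.Agent.W_448cp_h96.CB

/-!
# Component rows, part C: order, covers, end letters
-/

namespace Pool.Agent.GaussPoset.Cp

set_option linter.unusedSectionVars false

open Finset Win

universe u

variable {P : Type u} [Fintype P] [PartialOrder P] [DecidableEq P] {r j : ℕ}
  {t : P} {lo hi : ℕ → ℕ} {e : ℕ → ℕ → P}

lemma Comp.mono (C : Comp j t lo hi e) {i : ℕ} (hi' : i ≤ j) : Comp i t lo hi e :=
  ⟨C.lo_zero, C.hi_zero, C.top, fun k hk => C.lo_step k (by omega),
    fun k hk => C.hi_step k (by omega), fun k hk => C.lo_le k (by omega),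
    fun k s hk => C.lev_e k s (by omega), fun k s hk => C.le_t k s (by omega),
    fun k s s' hk => C.inj k s s' (by omega), fun z hz hzl => C.surj z hz (by omega),
    fun k s s' hk => C.cov k s s' (by omega)⟩

lemma Comp.lo_mono (C : Comp j t lo hi e) {l : ℕ} : ∀ {d : ℕ}, l + d ≤ j →
    lo l ≤ lo (l + d) ∧ lo (l + d) ≤ lo l + d := by
  intro d
  induction d with
  | zero => intro _; simp
  | succ d ih =>
    intro h
    have h1 := ih (by omega)
    have h2 := C.lo_step (l + d) (by omega)
    rw [← Nat.add_assoc]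
    omega

lemma Comp.hi_mono (C : Comp j t lo hi e) {l : ℕ} : ∀ {d : ℕ}, l + d ≤ j →
    hi l ≤ hi (l + d) ∧ hi (l + d) ≤ hi l + d := by
  intro d
  induction d with
  | zero => intro _; simp
  | succ d ih =>
    intro h
    have h1 := ih (by omega)
    have h2 := C.hi_step (l + d) (by omega)
    rw [← Nat.add_assoc]
    omega

lemma Comp.hi_le (C : Comp j t lo hi e) {k : ℕ} (hk : k ≤ j) : hi k ≤ k := by
  have := C.hi_mono (l := 0) (d := k) (by omega)
  rw [Nat.zero_add, C.hi_zero] at this
  omega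

/-- The order of a component: the elements of level `l` above `e (l+d) s` are the `e l s'` with
`s - d ≤ s' ≤ s`. -/
theorem Comp.le_iff (C : Comp j t lo hi e) (H : Gr P r) (hg : ∀ l, l < j → Good P l)
    (ht : lev t = 0) {l s' : ℕ} (h3 : lo l ≤ s') (h4 : s' ≤ hi l) : ∀ {d s : ℕ}, l + d ≤ j →
    lo (l + d) ≤ s → s ≤ hi (l + d) → (e (l + d) s ≤ e l s' ↔ s' ≤ s ∧ s ≤ s' + d) := by
  intro d
  induction d with
  | zero =>
    intro s hd h1 h2
    simp only [Nat.add_zero] at h1 h2 ⊢
    constructor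
    · intro h
      have h5 : e l s = e l s' := by
        by_contra hne
        have := lev_strictAnti (lt_of_le_of_ne h hne)
        rw [C.lev_e l s (by omega) h1 h2, C.lev_e l s' (by omega) h3 h4] at this
        omega
      have := C.inj l s s' (by omega) h1 h2 h3 h4 h5
      omega
    · intro h
      rw [show s = s' by omega]
  | succ d ih =>
    intro s hd h1 h2
    rw [← Nat.add_assoc] at h1 h2 ⊢
    have e1 := C.lo_step (l + d) (by omega)
    have e2 := C.hi_step (l + d) (by omega)
    have e3 := C.lo_mono (l := l) (d := d) (by omega)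
    have e4 := C.hi_mono (l := l) (d := d) (by omega)
    have e5 := C.lo_le (l + d) (by omega)
    constructor
    · intro h
      have hlt : e (l + d + 1) s < e l s' := by
        refine lt_of_le_of_ne h (fun h6 => ?_)
        have h7 := C.lev_e (l + d + 1) s (by omega) h1 h2
        rw [h6, C.lev_e l s' (by omega) h3 h4] at h7
        omega
      obtain ⟨y, hy, hy2⟩ := Hul.exists_cov hlt
      obtain ⟨a, ha1, ha2, ha3, ha4⟩ := C.cov_up H hg ht (by omega) h1 h2 hy
      rw [ha3, ih (by omega) ha1 ha2] at hy2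
      omega
    · rintro ⟨h5, h6⟩
      have : ∃ a, lo (l + d) ≤ a ∧ a ≤ hi (l + d) ∧ (a = s ∨ a + 1 = s) ∧ s' ≤ a ∧
          a ≤ s' + d := by
        by_cases hc : s ≤ hi (l + d) ∧ s ≤ s' + d
        · exact ⟨s, by omega, hc.1, Or.inl rfl, h5, hc.2⟩
        · refine ⟨s - 1, ?_, ?_, ?_, ?_, ?_⟩ <;> omega
      obtain ⟨a, ha1, ha2, ha3, ha4, ha5⟩ := this
      exact ((C.cov (l + d) s a (by omega) h1 h2 ha1 ha2).2 ha3).le.trans
        ((ih (by omega) ha1 ha2).2 ⟨ha4, ha5⟩)

/-- the upper covers of a row element -/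
lemma Comp.uc_eq (C : Comp j t lo hi e) (H : Gr P r) (hg : ∀ l, l < j → Good P l)
    (ht : lev t = 0) {k s : ℕ} (hk : k < j) (h1 : lo (k + 1) ≤ s) (h2 : s ≤ hi (k + 1)) :
    uc (e (k + 1) s) = ((Finset.Icc (lo k) (hi k)).filter
      (fun s' => s' = s ∨ s' + 1 = s)).image (e k) := by
  classical
  ext y
  rw [mem_uc, mem_image]
  constructor
  · intro hy
    obtain ⟨a, ha1, ha2, ha3, ha4⟩ := C.cov_up H hg ht hk h1 h2 hy
    exact ⟨a, mem_filter.2 ⟨mem_Icc.2 ⟨ha1, ha2⟩, ha4⟩, ha3.symm⟩
  · rintro ⟨a, ha, rfl⟩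
    rw [mem_filter, mem_Icc] at ha
    exact (C.cov k s a hk h1 h2 ha.1.1 ha.1.2).2 ha.2

lemma Comp.uc_card (C : Comp j t lo hi e) (H : Gr P r) (hg : ∀ l, l < j → Good P l)
    (ht : lev t = 0) {k s : ℕ} (hk : k < j) (h1 : lo (k + 1) ≤ s) (h2 : s ≤ hi (k + 1)) :
    (uc (e (k + 1) s)).card =
      ((Finset.Icc (lo k) (hi k)).filter (fun s' => s' = s ∨ s' + 1 = s)).card := by
  classical
  rw [C.uc_eq H hg ht hk h1 h2, Finset.card_image_of_injOn]
  intro a ha b hb hab
  simp only [coe_filter, mem_Icc, Set.mem_setOf_eq] at ha hb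
  exact C.inj k a b (by omega) ha.1.1 ha.1.2 hb.1.1 hb.1.2 hab

/-- single-up elements are ends with letter O -/
lemma Comp.single_up (C : Comp j t lo hi e) (H : Gr P r) (hg : ∀ l, l < j → Good P l)
    (ht : lev t = 0) {k s : ℕ} (hk : k < j) (h1 : lo (k + 1) ≤ s) (h2 : s ≤ hi (k + 1)) :
    (uc (e (k + 1) s)).card = 1 ↔ s = lo k ∨ s = hi k + 1 := by
  classical
  have e1 := C.lo_step k hk
  have e2 := C.hi_step k hk
  have e3 := C.lo_le k hk.le
  rw [C.uc_card H hg ht hk h1 h2]
  constructor
  · intro h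
    by_contra hcon
    have h3 : ((Finset.Icc (lo k) (hi k)).filter (fun s' => s' = s ∨ s' + 1 = s)) =
        {s - 1, s} := by
      ext a
      simp only [mem_filter, mem_Icc, mem_insert, mem_singleton]
      omega
    rw [h3, Finset.card_pair (by omega)] at h
    omega
  · rintro (h | h)
    · have h3 : ((Finset.Icc (lo k) (hi k)).filter (fun s' => s' = s ∨ s' + 1 = s)) =
          {s} := by
        ext a
        simp only [mem_filter, mem_Icc, mem_singleton]
        omega
      rw [h3, Finset.card_singleton]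
    · have h3 : ((Finset.Icc (lo k) (hi k)).filter (fun s' => s' = s ∨ s' + 1 = s)) =
          {s - 1} := by
        ext a
        simp only [mem_filter, mem_Icc, mem_singleton]
        omega
      rw [h3, Finset.card_singleton]

lemma Comp.double_up (C : Comp j t lo hi e) (H : Gr P r) (hg : ∀ l, l < j → Good P l)
    (ht : lev t = 0) {k s : ℕ} (hk : k < j) (h1 : lo (k + 1) ≤ s) (h2 : s ≤ hi (k + 1)) :
    (uc (e (k + 1) s)).card = 2 ↔ lo k < s ∧ s ≤ hi k := by
  have e1 := C.lo_step k hk
  have e2 := C.hi_step k hk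
  have h3 := C.single_up H hg ht hk h1 h2
  have h4 := uc_card_cases H (x := e (k + 1) s) (by rw [C.lev_e (k + 1) s (by omega) h1 h2]; omega)
  omega

/-- the lower covers of a row element -/
lemma Comp.dc_eq (C : Comp j t lo hi e) (H : Gr P r) {k s : ℕ} (hk : k < j) (h1 : lo k ≤ s)
    (h2 : s ≤ hi k) :
    dc (e k s) = ((Finset.Icc (lo (k + 1)) (hi (k + 1))).filter
      (fun s' => s = s' ∨ s + 1 = s')).image (e (k + 1)) := by
  classical
  ext y
  rw [mem_dc, mem_image]
  constructor
  · intro hy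
    have hly := lev_cov H hy
    rw [C.lev_e k s hk.le h1 h2] at hly
    obtain ⟨a, ha1, ha2, ha3⟩ := C.surj y (hy.le.trans (C.le_t k s hk.le h1 h2)) (by omega)
    rw [hly] at ha1 ha2 ha3
    refine ⟨a, mem_filter.2 ⟨mem_Icc.2 ⟨ha1, ha2⟩, ?_⟩, ha3⟩
    rw [← C.cov k a s hk ha1 ha2 h1 h2, ha3]
    exact hy
  · rintro ⟨a, ha, rfl⟩
    rw [mem_filter, mem_Icc] at ha
    exact (C.cov k a s hk ha.1.1 ha.1.2 h1 h2).2 ha.2

lemma Comp.dc_card (C : Comp j t lo hi e) (H : Gr P r) {k s : ℕ} (hk : k < j) (h1 : lo k ≤ s)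
    (h2 : s ≤ hi k) :
    (dc (e k s)).card =
      ((Finset.Icc (lo (k + 1)) (hi (k + 1))).filter (fun s' => s = s' ∨ s + 1 = s')).card := by
  classical
  rw [C.dc_eq H hk h1 h2, Finset.card_image_of_injOn]
  intro a ha b hb hab
  simp only [coe_filter, mem_Icc, Set.mem_setOf_eq] at ha hb
  exact C.inj (k + 1) a b (by omega) ha.1.1 ha.1.2 hb.1.1 hb.1.2 hab

/-- single-down elements: closed ends (or the only element of a row with one lower cover) -/
lemma Comp.single_down (C : Comp j t lo hi e) (H : Gr P r) {k s : ℕ} (hk : k < j)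
    (h1 : lo k ≤ s) (h2 : s ≤ hi k) :
    (dc (e k s)).card = 1 ↔ s < lo (k + 1) ∨ hi (k + 1) ≤ s := by
  classical
  have e1 := C.lo_step k hk
  have e2 := C.hi_step k hk
  have e3 := C.lo_le (k + 1) (by omega)
  rw [C.dc_card H hk h1 h2]
  constructor
  · intro h
    by_contra hcon
    have h3 : ((Finset.Icc (lo (k + 1)) (hi (k + 1))).filter
        (fun s' => s = s' ∨ s + 1 = s')) = {s, s + 1} := by
      ext a
      simp only [mem_filter, mem_Icc, mem_insert, mem_singleton]
      omega
    rw [h3, Finset.card_pair (by omega)] at h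
    omega
  · rintro (h | h)
    · have h3 : ((Finset.Icc (lo (k + 1)) (hi (k + 1))).filter
          (fun s' => s = s' ∨ s + 1 = s')) = {s + 1} := by
        ext a
        simp only [mem_filter, mem_Icc, mem_singleton]
        omega
      rw [h3, Finset.card_singleton]
    · by_cases h5 : s < lo (k + 1)
      · have h3 : ((Finset.Icc (lo (k + 1)) (hi (k + 1))).filter
            (fun s' => s = s' ∨ s + 1 = s')) = {s + 1} := by
          ext a
          simp only [mem_filter, mem_Icc, mem_singleton]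
          omega
        rw [h3, Finset.card_singleton]
      · have h3 : ((Finset.Icc (lo (k + 1)) (hi (k + 1))).filter
            (fun s' => s = s' ∨ s + 1 = s')) = {s} := by
          ext a
          simp only [mem_filter, mem_Icc, mem_singleton]
          omega
        rw [h3, Finset.card_singleton]

/-- the top of an element -/
lemma exists_top (z : P) : ∃ t : P, lev t = 0 ∧ z ≤ t := by
  obtain ⟨t, h1, h2⟩ := exists_above' (x := z) (j := 0) (Nat.zero_le _)
  exact ⟨t, h2, h1⟩

/-- an element of level `≤ j` is below one maximal element only -/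
lemma top_eq (H : Gr P r) (hg : ∀ l, l < j → Good P l) {z t t' : P} (hz : lev z ≤ j)
    (ht : lev t = 0) (ht' : lev t' = 0) (h : z ≤ t) (h' : z ≤ t') : t = t' :=
  Hul.top_unique (no_join H hg z hz) ht ht' h h'

end Pool.Agent.GaussPoset.Cp
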