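import Pool.Agent.W_448cp_h96.CC

/-!
# Component rows, part D: `PD`, `PU` and counting by components
-/

namespace Pool.Agent.GaussPoset.Cp

set_option linter.unusedSectionVars false

open Finset Win

universe u

variable {P : Type u} [Fintype P] [PartialOrder P] [DecidableEq P] {r j : ℕ}
  {t : P} {lo hi : ℕ → ℕ} {e : ℕ → ℕ → P}

/-- the number of the ends with the letters C, O at the levels `i`, `i + 1` (row `i` has at least
two elements) -/
def nPD (lo hi : ℕ → ℕ) (i : ℕ) : ℕ :=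
  (if lo (i + 1) = lo i + 1 ∧ lo (i + 2) = lo (i + 1) ∧ lo i < hi i then 1 else 0) +
    (if hi (i + 1) = hi i ∧ hi (i + 2) = hi (i + 1) + 1 ∧ lo i < hi i then 1 else 0)

/-- the number of the ends with the letters C, O at the levels `i`, `i + 1` (row `i + 2` has at
least two elements) -/
def nPU (lo hi : ℕ → ℕ) (i : ℕ) : ℕ :=
  (if lo (i + 1) = lo i + 1 ∧ lo (i + 2) = lo (i + 1) ∧ lo (i + 2) < hi (i + 2) then 1 else 0) +
    (if hi (i + 1) = hi i ∧ hi (i + 2) = hi (i + 1) + 1 ∧ lo (i + 2) < hi (i + 2) then 1 else 0)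

lemma card_two_or {a b : ℕ} {p q : Prop} [Decidable p] [Decidable q] {S : Finset ℕ} (hab : a ≠ b)
    (h : ∀ s, s ∈ S ↔ (s = a ∧ p) ∨ (s = b ∧ q)) :
    S.card = (if p then 1 else 0) + (if q then 1 else 0) := by
  by_cases hp : p <;> by_cases hq : q
  · have : S = {a, b} := by
      ext s
      rw [h]
      simp [hp, hq]
    rw [this, if_pos hp, if_pos hq, Finset.card_pair hab]
  · have : S = {a} := by
      ext s
      rw [h]
      simp [hp, hq]
    rw [this, if_pos hp, if_neg hq, Finset.card_singleton]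
  · have : S = {b} := by
      ext s
      rw [h]
      simp [hp, hq]
    rw [this, if_neg hp, if_pos hq, Finset.card_singleton]
  · have : S = ∅ := by
      ext s
      rw [h]
      simp [hp, hq]
    rw [this, if_neg hp, if_neg hq, Finset.card_empty]

lemma Comp.mem_PD (C : Comp j t lo hi e) (H : Gr P r) (hg : ∀ l, l < j → Good P l)
    (ht : lev t = 0) {i s : ℕ} (hi2 : i + 2 ≤ j) (h1 : lo (i + 2) ≤ s) (h2 : s ≤ hi (i + 2)) :
    e (i + 2) s ∈ PD P i ↔ (s = lo (i + 1) ∧ lo i < s ∧ s ≤ hi i) ∨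
      (s = hi (i + 1) + 1 ∧ lo i < hi (i + 1) ∧ hi (i + 1) ≤ hi i) := by
  have hl := C.lev_e (i + 2) s hi2 h1 h2
  have e1 : lo (i + 2) = lo (i + 1) ∨ lo (i + 2) = lo (i + 1) + 1 := C.lo_step (i + 1) (by omega)
  have e2 : hi (i + 2) = hi (i + 1) ∨ hi (i + 2) = hi (i + 1) + 1 := C.hi_step (i + 1) (by omega)
  have e3 := C.lo_le (i + 1) (by omega)
  have e4 := C.lo_step i (by omega)
  have e5 := C.hi_step i (by omega)
  rw [Win.mem_PD, C.single_up H hg ht (k := i + 1) (by omega) h1 h2]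
  constructor
  · rintro ⟨-, h3, w, h4, h5⟩
    obtain ⟨a, ha1, ha2, ha3, ha4⟩ := C.cov_up H hg ht (k := i + 1) (by omega) h1 h2 h4
    subst ha3
    rw [C.double_up H hg ht (by omega) ha1 ha2] at h5
    rcases h3 with h3 | h3
    · left
      have : a = s := by omega
      subst this
      exact ⟨h3, h5⟩
    · right
      have : a = hi (i + 1) := by omega
      subst this
      exact ⟨h3, h5⟩
  · rintro (⟨h3, h4, h5⟩ | ⟨h3, h4, h5⟩)
    · refine ⟨hl, Or.inl h3, e (i + 1) s, ?_, ?_⟩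
      · exact (C.cov (i + 1) s s (by omega) h1 h2 (by omega) (by omega)).2 (Or.inl rfl)
      · rw [C.double_up H hg ht (by omega) (by omega) (by omega)]
        exact ⟨h4, h5⟩
    · refine ⟨hl, Or.inr h3, e (i + 1) (hi (i + 1)), ?_, ?_⟩
      · exact (C.cov (i + 1) s (hi (i + 1)) (by omega) h1 h2 e3 le_rfl).2 (Or.inr h3.symm)
      · rw [C.double_up H hg ht (by omega) e3 le_rfl]
        exact ⟨h4, h5⟩

/-- the single-up elements below a double-up element of a component -/
theorem Comp.card_PD (C : Comp j t lo hi e) (H : Gr P r) (hg : ∀ l, l < j → Good P l)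
    (ht : lev t = 0) {i : ℕ} (hi2 : i + 2 ≤ j) :
    ∀ [DecidablePred (· ≤ t)], ((PD P i).filter (· ≤ t)).card = nPD lo hi i := by
  intro _
  classical
  have e1 : lo (i + 2) = lo (i + 1) ∨ lo (i + 2) = lo (i + 1) + 1 := C.lo_step (i + 1) (by omega)
  have e2 : hi (i + 2) = hi (i + 1) ∨ hi (i + 2) = hi (i + 1) + 1 := C.hi_step (i + 1) (by omega)
  have e3 := C.lo_le (i + 1) (by omega)
  have e4 := C.lo_step i (by omega)
  have e5 := C.hi_step i (by omega)
  have h1 : (PD P i).filter (· ≤ t) = ((Finset.Icc (lo (i + 2)) (hi (i + 2))).filter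
      (fun s => (s = lo (i + 1) ∧ lo i < s ∧ s ≤ hi i) ∨
      (s = hi (i + 1) + 1 ∧ lo i < hi (i + 1) ∧ hi (i + 1) ≤ hi i))).image (e (i + 2)) := by
    ext z
    rw [mem_filter, mem_image]
    constructor
    · rintro ⟨h1, h2⟩
      have hz := (Win.mem_PD.1 h1).1
      obtain ⟨s, h3, h4, h5⟩ := C.surj z h2 (by omega)
      rw [hz] at h3 h4 h5
      refine ⟨s, mem_filter.2 ⟨mem_Icc.2 ⟨h3, h4⟩, ?_⟩, h5⟩
      rw [← C.mem_PD H hg ht hi2 h3 h4, h5]
      exact h1
    · rintro ⟨s, hs, rfl⟩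
      rw [mem_filter, mem_Icc] at hs
      exact ⟨(C.mem_PD H hg ht hi2 hs.1.1 hs.1.2).2 hs.2, C.le_t _ s hi2 hs.1.1 hs.1.2⟩
  rw [h1, Finset.card_image_of_injOn]
  · unfold nPD
    refine card_two_or (a := lo (i + 1)) (b := hi (i + 1) + 1) (by omega) (fun s => ?_)
    simp only [mem_filter, mem_Icc, mem_singleton]
    omega
  · intro a ha b hb hab
    simp only [coe_filter, mem_Icc, Set.mem_setOf_eq] at ha hb
    exact C.inj (i + 2) a b (by omega) ha.1.1 ha.1.2 hb.1.1 hb.1.2 hab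

lemma Comp.mem_PU (C : Comp j t lo hi e) (H : Gr P r) {i s : ℕ} (hi2 : i + 2 ≤ j)
    (h1 : lo i ≤ s) (h2 : s ≤ hi i) :
    e i s ∈ PU P (i + 2) ↔ (s + 1 = lo (i + 1) ∧ lo (i + 2) = lo (i + 1) ∧
        lo (i + 2) < hi (i + 2)) ∨
      (s = hi (i + 1) ∧ hi (i + 2) = hi (i + 1) + 1 ∧ lo (i + 2) < hi (i + 2)) := by
  have hl := C.lev_e i s (by omega) h1 h2
  have e1 : lo (i + 2) = lo (i + 1) ∨ lo (i + 2) = lo (i + 1) + 1 := C.lo_step (i + 1) (by omega)
  have e2 : hi (i + 2) = hi (i + 1) ∨ hi (i + 2) = hi (i + 1) + 1 := C.hi_step (i + 1) (by omega)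
  have e3 := C.lo_le (i + 1) (by omega)
  have e4 := C.lo_step i (by omega)
  have e5 := C.hi_step i (by omega)
  have e6 := C.lo_le (i + 2) (by omega)
  have hdc : ∀ {a : ℕ}, lo (i + 1) ≤ a → a ≤ hi (i + 1) → ((dc (e (i + 1) a)).card = 2 ↔
      lo (i + 2) ≤ a ∧ a < hi (i + 2)) := by
    intro a h3 h4
    have h5 : (dc (e (i + 1) a)).card = 1 ↔ a < lo (i + 2) ∨ hi (i + 2) ≤ a :=
      C.single_down H (k := i + 1) (by omega) h3 h4
    have h6 := dc_card_le H (e (i + 1) a)
    have h7 : (dc (e (i + 1) a)).card ≠ 0 := by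
      rw [C.dc_card H (by omega) h3 h4]
      intro h8
      rw [Finset.card_eq_zero, Finset.filter_eq_empty_iff] at h8
      have h9 : a ∈ Finset.Icc (lo (i + 2)) (hi (i + 2)) ∨
          a + 1 ∈ Finset.Icc (lo (i + 2)) (hi (i + 2)) := by
        rw [mem_Icc, mem_Icc]
        omega
      rcases h9 with h9 | h9
      · exact h8 h9 (Or.inl rfl)
      · exact h8 h9 (Or.inr rfl)
    omega
  rw [Win.mem_PU, C.single_down H (by omega) h1 h2]
  constructor
  · rintro ⟨-, h3, u, h4, h5⟩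
    have h6 : u ∈ dc (e i s) := mem_dc.2 h4
    rw [C.dc_eq H (by omega) h1 h2, mem_image] at h6
    obtain ⟨a, ha, rfl⟩ := h6
    rw [mem_filter, mem_Icc] at ha
    rw [hdc ha.1.1 ha.1.2] at h5
    omega
  · rintro (⟨h3, h4, h5⟩ | ⟨h3, h4, h5⟩)
    · refine ⟨by omega, by omega, e (i + 1) (s + 1), ?_, ?_⟩
      · exact (C.cov i (s + 1) s (by omega) (by omega) (by omega) h1 h2).2 (Or.inr rfl)
      · rw [hdc (by omega) (by omega)]
        omega
    · refine ⟨by omega, by omega, e (i + 1) s, ?_, ?_⟩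
      · exact (C.cov i s s (by omega) (by omega) (by omega) h1 h2).2 (Or.inl rfl)
      · rw [hdc (by omega) (by omega)]
        omega

/-- the single-down elements above a double-down element of a component -/
theorem Comp.card_PU (C : Comp j t lo hi e) (H : Gr P r) {i : ℕ} (hi2 : i + 2 ≤ j) :
    ∀ [DecidablePred (· ≤ t)], ((PU P (i + 2)).filter (· ≤ t)).card = nPU lo hi i := by
  intro _
  classical
  have e1 : lo (i + 2) = lo (i + 1) ∨ lo (i + 2) = lo (i + 1) + 1 := C.lo_step (i + 1) (by omega)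
  have e2 : hi (i + 2) = hi (i + 1) ∨ hi (i + 2) = hi (i + 1) + 1 := C.hi_step (i + 1) (by omega)
  have e3 := C.lo_le (i + 1) (by omega)
  have e4 := C.lo_step i (by omega)
  have e5 := C.hi_step i (by omega)
  have e6 := C.lo_le i (by omega)
  have h1 : (PU P (i + 2)).filter (· ≤ t) = ((Finset.Icc (lo i) (hi i)).filter
      (fun s => (s + 1 = lo (i + 1) ∧ lo (i + 2) = lo (i + 1) ∧ lo (i + 2) < hi (i + 2)) ∨
      (s = hi (i + 1) ∧ hi (i + 2) = hi (i + 1) + 1 ∧ lo (i + 2) < hi (i + 2)))).image (e i) := by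
    ext z
    rw [mem_filter, mem_image]
    constructor
    · rintro ⟨h1, h2⟩
      have hz := (Win.mem_PU.1 h1).1
      have hz' : lev z = i := by omega
      obtain ⟨s, h3, h4, h5⟩ := C.surj z h2 (by omega)
      rw [hz'] at h3 h4 h5
      refine ⟨s, mem_filter.2 ⟨mem_Icc.2 ⟨h3, h4⟩, ?_⟩, h5⟩
      rw [← C.mem_PU H hi2 h3 h4, h5]
      exact h1
    · rintro ⟨s, hs, rfl⟩
      rw [mem_filter, mem_Icc] at hs
      exact ⟨(C.mem_PU H hi2 hs.1.1 hs.1.2).2 hs.2, C.le_t _ s (by omega) hs.1.1 hs.1.2⟩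
  rw [h1, Finset.card_image_of_injOn]
  · unfold nPU
    rcases Nat.eq_or_lt_of_le e6 with h7 | h7
    · -- one element in row `i`
      rcases Nat.lt_or_ge (lo i) (lo (i + 1)) with h8 | h8
      · have : (Finset.Icc (lo i) (hi i)).filter
            (fun s => (s + 1 = lo (i + 1) ∧ lo (i + 2) = lo (i + 1) ∧ lo (i + 2) < hi (i + 2)) ∨
            (s = hi (i + 1) ∧ hi (i + 2) = hi (i + 1) + 1 ∧ lo (i + 2) < hi (i + 2))) =
            if lo (i + 2) = lo (i + 1) ∧ lo (i + 2) < hi (i + 2) then {lo i} else ∅ := by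
          ext s
          split_ifs with h9
          · simp only [mem_filter, mem_Icc, mem_singleton]
            omega
          · simp only [mem_filter, mem_Icc, notMem_empty, iff_false]
            omega
        rw [this]
        split_ifs <;> simp <;> omega
      · have : (Finset.Icc (lo i) (hi i)).filter
            (fun s => (s + 1 = lo (i + 1) ∧ lo (i + 2) = lo (i + 1) ∧ lo (i + 2) < hi (i + 2)) ∨
            (s = hi (i + 1) ∧ hi (i + 2) = hi (i + 1) + 1 ∧ lo (i + 2) < hi (i + 2))) =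
            if hi (i + 1) = hi i ∧ hi (i + 2) = hi (i + 1) + 1 ∧ lo (i + 2) < hi (i + 2)
              then {lo i} else ∅ := by
          ext s
          split_ifs with h9
          · simp only [mem_filter, mem_Icc, mem_singleton]
            omega
          · simp only [mem_filter, mem_Icc, notMem_empty, iff_false]
            omega
        rw [this]
        split_ifs <;> simp <;> omega
    · refine card_two_or (a := lo i) (b := hi i) (by omega) (fun s => ?_)
      simp only [mem_filter, mem_Icc, mem_singleton]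
      omega
  · intro a ha b hb hab
    simp only [coe_filter, mem_Icc, Set.mem_setOf_eq] at ha hb
    exact C.inj i a b (by omega) ha.1.1 ha.1.2 hb.1.1 hb.1.2 hab

/-- counting by components -/
theorem card_tops (H : Gr P r) (hg : ∀ l, l < j → Good P l) {S : Finset P}
    (hS : ∀ z ∈ S, lev z ≤ j) [∀ t : P, DecidablePred (· ≤ t)] :
    S.card = ∑ t ∈ lv P 0, (S.filter (· ≤ t)).card := by
  classical
  rw [← Finset.card_biUnion]
  · congr 1
    ext z
    rw [mem_biUnion]
    constructor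
    · intro hz
      obtain ⟨t, h1, h2⟩ := exists_top z
      exact ⟨t, mem_lv.2 h1, mem_filter.2 ⟨hz, h2⟩⟩
    · rintro ⟨t, -, h⟩
      exact (mem_filter.1 h).1
  · intro t ht t' ht' hne
    rw [Function.onFun, Finset.disjoint_left]
    intro z h1 h2
    rw [mem_filter] at h1 h2
    exact hne (top_eq H hg (hS z h1.1) (mem_lv.1 ht) (mem_lv.1 ht') h1.2 h2.2)

/-- a row as a finset -/
theorem Comp.row (C : Comp j t lo hi e) {k : ℕ} (hk : k ≤ j) [DecidablePred (· ≤ t)] :
    (lv P k).filter (· ≤ t) = (Finset.Icc (lo k) (hi k)).image (e k) := by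
  classical
  ext z
  rw [mem_filter, mem_image, mem_lv]
  constructor
  · rintro ⟨h1, h2⟩
    obtain ⟨s, h3, h4, h5⟩ := C.surj z h2 (by omega)
    rw [h1] at h3 h4 h5
    exact ⟨s, mem_Icc.2 ⟨h3, h4⟩, h5⟩
  · rintro ⟨s, hs, rfl⟩
    rw [mem_Icc] at hs
    exact ⟨C.lev_e k s hk hs.1 hs.2, C.le_t k s hk hs.1 hs.2⟩

theorem Comp.card_row (C : Comp j t lo hi e) {k : ℕ} (hk : k ≤ j) [DecidablePred (· ≤ t)] :
    ((lv P k).filter (· ≤ t)).card = hi k + 1 - lo k := by
  classical
  rw [C.row hk, Finset.card_image_of_injOn, Nat.card_Icc]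
  intro a ha b hb hab
  simp only [coe_Icc, Set.mem_Icc] at ha hb
  exact C.inj k a b hk ha.1 ha.2 hb.1 hb.2 hab

/-- all components at once -/
theorem comps (H : Gr P r) (hjr : j ≤ r) (hg : ∀ l, l < j → Good P l) :
    ∃ (lo hi : P → ℕ → ℕ) (e : P → ℕ → ℕ → P), ∀ t, lev t = 0 → Comp j t (lo t) (hi t) (e t) := by
  classical
  have : ∀ t : P, ∃ (lo hi : ℕ → ℕ) (e : ℕ → ℕ → P), lev t = 0 → Comp j t lo hi e := by
    intro t
    by_cases ht : lev t = 0
    · obtain ⟨lo, hi, e, C⟩ := comp_exists H ht hjr hg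
      exact ⟨lo, hi, e, fun _ => C⟩
    · exact ⟨fun _ => 0, fun _ => 0, fun _ _ => t, fun h => absurd h ht⟩
  choose lo hi e h using this
  exact ⟨lo, hi, e, h⟩

/-- the number of single-up elements below double-up ones, by components -/
theorem card_PD_eq (H : Gr P r) {lo hi : P → ℕ → ℕ} {e : P → ℕ → ℕ → P}
    (hg : ∀ l, l < j → Good P l) (hC : ∀ t, lev t = 0 → Comp j t (lo t) (hi t) (e t)) {i : ℕ}
    (hi2 : i + 2 ≤ j) : (PD P i).card = ∑ t ∈ lv P 0, nPD (lo t) (hi t) i := by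
  classical
  rw [card_tops H hg (S := PD P i) (fun z hz => by
    have := (Win.mem_PD.1 hz).1
    omega)]
  exact sum_congr rfl (fun t ht => (hC t (mem_lv.1 ht)).card_PD H hg (mem_lv.1 ht) hi2)

theorem card_PU_eq (H : Gr P r) {lo hi : P → ℕ → ℕ} {e : P → ℕ → ℕ → P}
    (hg : ∀ l, l < j → Good P l) (hC : ∀ t, lev t = 0 → Comp j t (lo t) (hi t) (e t)) {i : ℕ}
    (hi2 : i + 2 ≤ j) : (PU P (i + 2)).card = ∑ t ∈ lv P 0, nPU (lo t) (hi t) i := by
  classical
  rw [card_tops H hg (S := PU P (i + 2)) (fun z hz => by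
    have := (Win.mem_PU.1 hz).1
    omega)]
  exact sum_congr rfl (fun t ht => (hC t (mem_lv.1 ht)).card_PU H hi2)

end Pool.Agent.GaussPoset.Cp
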